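import Pool.Agent.H6.GS2.Targets
import Pool.Agent.H6.GS2.Bas

/-!
# Near-contact frequencies (Theorem (G), board gsw_modules, row NCP)
-/

set_option autoImplicit false

open Finset Pool.Agent.H6.N4D Pool.Agent.H93 Pool.Agent.H93.GS Pool.Agent.H6.GS2

namespace Pool.Agent.H13.GSW

theorem ncp_ee_sub_one (x : ℝ) : ‖ee x - 1‖ = 2 * |Real.sin (Real.pi * x)| := by
  have h := Complex.norm_exp_I_mul_ofReal_sub_one (2 * Real.pi * x)
  unfold ee
  rw [mul_comm, h, norm_mul, Real.norm_eq_abs, Real.norm_eq_abs, abs_two]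
  congr 3
  ring

theorem ncp_ac_one (N n : ℕ) (F : ℕ → ℂ) : ac 1 N n F = (∑ m ∈ Ioc n (n + N), F m) / N := by
  unfold ac
  have : (Ioc n (n + N)).filter (fun m => 1 ∣ m) = Ioc n (n + N) :=
    filter_true_of_mem fun m _ => one_dvd m
  rw [this, Nat.cast_one, mul_one]

theorem ncp_geom (γ : ℝ) (n N : ℕ) :
    (∑ m ∈ Ioc n (n + N), ee (γ * m)) * (ee γ - 1) = ee (γ * (n + 1)) * (ee (γ * N) - 1) := by
  induction N with
  | zero =>
    simp [ee]
  | succ N ih =>
    rw [show n + (N + 1) = (n + N) + 1 by ring, sum_Ioc_succ_top (by omega), add_mul, ih]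
    have e1 : ee (γ * ((n + N + 1 : ℕ) : ℝ)) = ee (γ * (n + 1)) * ee (γ * N) := by
      rw [← ee_add]
      congr 1
      push_cast
      ring
    have e2 : ee (γ * ((N + 1 : ℕ) : ℝ)) = ee (γ * N) * ee γ := by
      rw [← ee_add]
      congr 1
      push_cast
      ring
    rw [e1, e2]
    ring

/-- `sin y ≤ y (1 - y² / (2 π²))` -/
theorem ncp_sin (y : ℝ) (h0 : 0 ≤ y) (h1 : y ≤ Real.pi) :
    Real.sin y ≤ y * (1 - y ^ 2 / (2 * Real.pi ^ 2)) := by
  have hpi := Real.pi_pos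
  have e : Real.sin y = 2 * Real.sin (y / 2) * Real.cos (y / 2) := by
    rw [← Real.sin_two_mul]
    congr 1
    ring
  have hs : Real.sin (y / 2) ≤ y / 2 := Real.sin_le (by linarith)
  have hc : Real.cos (y / 2) ≤ 1 - 2 / Real.pi ^ 2 * (y / 2) ^ 2 :=
    Real.cos_le_one_sub_mul_cos_sq (by rw [abs_of_nonneg (by linarith)]; linarith)
  have hc0 : 0 ≤ Real.cos (y / 2) := Real.cos_nonneg_of_mem_Icc ⟨by linarith, by linarith⟩
  have e2 : 2 / Real.pi ^ 2 * (y / 2) ^ 2 = y ^ 2 / (2 * Real.pi ^ 2) := by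
    field_simp
  rw [e2] at hc
  rw [e]
  calc 2 * Real.sin (y / 2) * Real.cos (y / 2) ≤ 2 * (y / 2) * Real.cos (y / 2) := by gcongr
    _ = y * Real.cos (y / 2) := by ring
    _ ≤ _ := mul_le_mul_of_nonneg_left hc h0

/-- the mean of a slow exponential -/
theorem ncp_mean (N n : ℕ) (s : ℝ) (hN : 4 ≤ N) (hs0 : s ≠ 0) (hs : |s| ≤ 1) :
    ‖ac 1 N n (fun m => ee (-(s / N) * m))‖ ≤ 1 - s ^ 2 / 2 + 5 / (2 * (N : ℝ) ^ 2) := by
  have hpi := Real.pi_pos
  have hpi3 := Real.pi_gt_three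
  have hpi4 : Real.pi < 3.15 := Real.pi_lt_d2
  have hNr : (4 : ℝ) ≤ N := by exact_mod_cast hN
  have hN0 : (0 : ℝ) < N := by linarith
  have ha0 : 0 < |s| := abs_pos.2 hs0
  set z := ac 1 N n (fun m => ee (-(s / N) * m)) with hz
  have hgeo := congrArg norm (ncp_geom (-(s / N)) n N)
  rw [norm_mul, norm_mul, norm_ee, one_mul, ncp_ee_sub_one, ncp_ee_sub_one] at hgeo
  have eS : ‖∑ m ∈ Ioc n (n + N), ee (-(s / N) * m)‖ = N * ‖z‖ := by
    rw [hz, ncp_ac_one, norm_div, Complex.norm_natCast]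
    field_simp
  rw [eS] at hgeo
  have e1 : |Real.sin (Real.pi * (-(s / N) * N))| = Real.sin (Real.pi * |s|) := by
    have : Real.pi * (-(s / N) * N) = -(Real.pi * s) := by
      field_simp
    rw [this, Real.sin_neg, abs_neg]
    rcases abs_cases s with ⟨h1, h2⟩ | ⟨h1, h2⟩
    · rw [h1, abs_of_nonneg]
      refine Real.sin_nonneg_of_nonneg_of_le_pi (by positivity) ?_
      rw [h1] at hs
      nlinarith
    · rw [h1] at hs ⊢
      have h3 : 0 ≤ Real.sin (Real.pi * (-s)) :=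
        Real.sin_nonneg_of_nonneg_of_le_pi (by nlinarith) (by nlinarith)
      have h4 : Real.sin (Real.pi * s) = -Real.sin (Real.pi * (-s)) := by
        rw [← Real.sin_neg]
        congr 1
        ring
      rw [h4, abs_neg, abs_of_nonneg h3]
  set u := Real.pi * |s| / N with hu
  have hu0 : 0 < u := by positivity
  have hu1 : u ≤ 1 := by
    rw [hu, div_le_one hN0]
    nlinarith
  have hsu : 0 ≤ Real.sin u := Real.sin_nonneg_of_nonneg_of_le_pi hu0.le (by linarith)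
  have e2 : |Real.sin (Real.pi * -(s / N))| = Real.sin u := by
    rcases abs_cases s with ⟨h1, h2⟩ | ⟨h1, h2⟩
    · have : Real.pi * -(s / N) = -u := by
        rw [hu, h1]
        ring
      rw [this, Real.sin_neg, abs_neg, abs_of_nonneg hsu]
    · have : Real.pi * -(s / N) = u := by
        rw [hu, h1]
        ring
      rw [this, abs_of_nonneg hsu]
  rw [e1, e2] at hgeo
  -- hgeo : N * ‖z‖ * (2 * sin u) = 2 * sin (π |s|)
  have h1 : Real.sin (Real.pi * |s|) ≤ Real.pi * |s| * (1 - s ^ 2 / 2) := by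
    have := ncp_sin (Real.pi * |s|) (by positivity) (by nlinarith)
    have e : (Real.pi * |s|) ^ 2 / (2 * Real.pi ^ 2) = s ^ 2 / 2 := by
      rw [mul_pow, sq_abs]
      field_simp
    rwa [e] at this
  have h2 : u * (1 - 5 / (2 * (N : ℝ) ^ 2)) ≤ Real.sin u := by
    have h3 : u - u ^ 3 / 4 ≤ Real.sin u := by
      have h0 := (Real.sin_gt_sub_cube hu0).le
      have : 0 ≤ u ^ 3 := by positivity
      linarith
    have h4 : u ^ 2 ≤ 10 / (N : ℝ) ^ 2 := by
      rw [hu, div_pow]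
      refine div_le_div_of_nonneg_right ?_ (by positivity)
      have : (Real.pi * |s|) ^ 2 ≤ (3.15 * 1) ^ 2 :=
        pow_le_pow_left₀ (by positivity) (mul_le_mul hpi4.le hs (abs_nonneg _) (by norm_num)) 2
      norm_num at this ⊢
      linarith
    have h5 : 5 / (2 * (N : ℝ) ^ 2) = 10 / (N : ℝ) ^ 2 / 4 := by
      field_simp
      ring
    rw [h5]
    have h6 : u * (1 - 10 / (N : ℝ) ^ 2 / 4) ≤ u * (1 - u ^ 2 / 4) :=
      mul_le_mul_of_nonneg_left (by linarith) hu0.le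
    refine h6.trans ?_
    have : u * (1 - u ^ 2 / 4) = u - u ^ 3 / 4 := by ring
    rw [this]
    exact h3
  have h7 : N * u = Real.pi * |s| := by
    rw [hu]
    field_simp
  have hz0 := norm_nonneg z
  have hz1 : ‖z‖ ≤ 1 := by
    rw [hz, ncp_ac_one, norm_div, Complex.norm_natCast, div_le_one hN0]
    refine (norm_sum_le _ _).trans ?_
    have : ∀ m ∈ Ioc n (n + N), ‖ee (-(s / N) * m)‖ = 1 := fun m _ => norm_ee _
    rw [sum_congr rfl this, sum_const, Nat.card_Ioc, nsmul_eq_mul, mul_one]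
    simp
  have h8 : Real.pi * |s| * (‖z‖ * (1 - 5 / (2 * (N : ℝ) ^ 2))) ≤
      Real.pi * |s| * (1 - s ^ 2 / 2) := by
    calc Real.pi * |s| * (‖z‖ * (1 - 5 / (2 * (N : ℝ) ^ 2)))
        = N * ‖z‖ * (u * (1 - 5 / (2 * (N : ℝ) ^ 2))) := by
          rw [← h7]
          ring
      _ ≤ N * ‖z‖ * Real.sin u := mul_le_mul_of_nonneg_left h2 (by positivity)
      _ = Real.sin (Real.pi * |s|) := by linarith
      _ ≤ _ := h1
  have h9 := le_of_mul_le_mul_left h8 (by positivity)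
  have h10 : 0 ≤ 5 / (2 * (N : ℝ) ^ 2) := by positivity
  nlinarith

theorem pf_NCP (hU : T_UNI) (hG : T_GEX) : T_NCP := by
  intro th d₁ hth hth1 hd hd1
  obtain ⟨D, hD⟩ : ∃ D : ℝ, D = d₁ ^ 2 * th := ⟨_, rfl⟩
  have hD0 : 0 < D := by rw [hD]; positivity
  have hDth : D ≤ th := by
    rw [hD]
    nlinarith [pow_le_one₀ hd.le hd1 (n := 2)]
  have hD1 : D ≤ 1 := hDth.trans hth1
  refine ⟨(D / 20) ^ 2, by positivity, by nlinarith, fun Lam hLam => ?_⟩
  obtain ⟨P₁, hP₁⟩ := exists_nat_ge (4000 * Lam / D)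
  obtain ⟨L₁, hL₁⟩ := exists_nat_ge (100 / D)
  have hP₁D : 4000 * Lam ≤ P₁ * D := by rwa [div_le_iff₀ hD0] at hP₁
  have hL₁D : 100 ≤ L₁ * D := by rwa [div_le_iff₀ hD0] at hL₁
  refine ⟨max P₁ 1, max L₁ 4, (D / 20) ^ 2, le_max_right _ _,
    (by norm_num : 1 ≤ 4).trans (le_max_right _ _), by positivity, by nlinarith, ?_⟩
  intro lam P L n g hlam hL hP hopt hgap β s hs hβ hβs
  by_contra hcon
  rw [not_le] at hcon
  have hP1 : 1 ≤ P := (le_max_right _ _).trans hP
  have hL4 : 4 ≤ L := (le_max_right _ _).trans hL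
  have hPr : (P₁ : ℝ) ≤ P := by exact_mod_cast (le_max_left _ _).trans hP
  have hLr : (L₁ : ℝ) ≤ L := by exact_mod_cast (le_max_left _ _).trans hL
  have hPD : 4000 * Lam ≤ P * D := hP₁D.trans (mul_le_mul_of_nonneg_right hPr hD0.le)
  have hLD : 100 ≤ L * D := hL₁D.trans (mul_le_mul_of_nonneg_right hLr hD0.le)
  have hP0 : (0 : ℝ) < P := by exact_mod_cast hP1
  have hL0 : (0 : ℝ) < L := by
    have : 0 < L := by omega
    exact_mod_cast this
  have hL4r : (4 : ℝ) ≤ L := by exact_mod_cast hL4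
  obtain ⟨N, hN⟩ : ∃ N : ℕ, N = P * L := ⟨_, rfl⟩
  have hNr : (N : ℝ) = P * L := by rw [hN]; push_cast; rfl
  have hP1r : (1 : ℝ) ≤ P := by exact_mod_cast hP1
  have hNL : (L : ℝ) ≤ N := by rw [hNr]; nlinarith
  have hNP : (P : ℝ) ≤ N := by rw [hNr]; nlinarith
  have hN4 : 4 ≤ N := by
    have : (4 : ℝ) ≤ N := hL4r.trans hNL
    exact_mod_cast this
  have hN0 : (0 : ℝ) < N := by linarith
  have hs0 : 0 < |s| := hd.trans hcon
  have hsne : s ≠ 0 := abs_pos.1 hs0
  -- the mean of the weight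
  have hmean : ‖ac 1 N n (fun m => ee (-(s / N) * m))‖ ≤ 1 - d₁ ^ 2 / 2 + D / 40 := by
    rcases le_or_gt |s| 1 with h1 | h1
    · refine (ncp_mean N n s hN4 hsne h1).trans ?_
      have h2 : d₁ ^ 2 ≤ s ^ 2 := by
        rw [← sq_abs s]
        exact pow_le_pow_left₀ hd.le hcon.le 2
      have h3 : 5 / (2 * (N : ℝ) ^ 2) ≤ D / 40 := by
        rw [div_le_div_iff₀ (by positivity) (by norm_num)]
        have h4 : 100 ≤ N * D := hLD.trans (mul_le_mul_of_nonneg_right hNL hD0.le)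
        have h5 : 4 * 100 ≤ (N : ℝ) * (N * D) :=
          mul_le_mul (by exact_mod_cast hN4) h4 (by norm_num) hN0.le
        nlinarith
      linarith
    · have hLamN : 2 * |s| ≤ N := by
        have h2 : 4000 * Lam ≤ P := by
          refine hPD.trans ?_
          nlinarith
        linarith
      have hnd : nd (((1 : ℕ) : ℝ) * (-(s / N))) = |s| / N := by
        rw [Nat.cast_one, one_mul, nd_neg, nd_eq_abs, abs_div, abs_of_pos hN0]
        rw [abs_div, abs_of_pos hN0, div_le_iff₀ hN0]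
        linarith
      have h2 := hG 1 N n (-(s / N)) le_rfl (by omega) (by rw [hnd]; positivity)
      rw [hnd] at h2
      have h3 : ((1 : ℕ) : ℝ) / (2 * N * (|s| / N)) = 1 / (2 * |s|) := by
        rw [Nat.cast_one]
        field_simp
      rw [h3] at h2
      have h4 : 1 / (2 * |s|) ≤ 1 / 2 := one_div_le_one_div_of_le (by norm_num) (by linarith)
      have h5 : d₁ ^ 2 ≤ 1 := pow_le_one₀ hd.le hd1
      linarith
  -- uniformity
  have hU1 := hU th lam 1 P L n ((D / 20) ^ 2) ((D / 20) ^ 2) β g hth hth1 hlam le_rfl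
    (by omega) hP1 (by positivity) (by nlinarith) (by positivity) (by nlinarith) hopt hgap hβ
    (fun m => ee (-(s / N) * m)) 1 (2 * Real.pi * (Lam / P)) (fun m _ => (norm_ee _).le)
    (by positivity) ?_
  swap
  · intro j _ m hm m' hm'
    refine (norm_ee_sub_le _ _).trans ?_
    refine mul_le_mul_of_nonneg_left ?_ (by positivity)
    refine (nd_le_abs _).trans ?_
    have e1 : -(s / N) * m - -(s / N) * m' = -(s / N) * ((m : ℝ) - m') := by ring
    rw [e1, abs_mul, abs_neg, abs_div, abs_of_pos hN0]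
    have h1 : |(m : ℝ) - m'| ≤ L := by
      rw [mem_Ioc] at hm hm'
      have a1 : (m : ℝ) ≤ n + j * L + L := by exact_mod_cast hm.2
      have a2 : ((n + j * L : ℕ) : ℝ) < m := by exact_mod_cast hm.1
      have a3 : (m' : ℝ) ≤ n + j * L + L := by exact_mod_cast hm'.2
      have a4 : ((n + j * L : ℕ) : ℝ) < m' := by exact_mod_cast hm'.1
      push_cast at a2 a4
      rw [abs_le]
      constructor <;> linarith
    calc |s| / N * |(m : ℝ) - m'| ≤ Lam / N * L := by gcongr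
      _ = Lam / P := by
        rw [hNr]
        field_simp
  have eac : ac 1 (P * L) n (fun m => ((lam m : ℂ) - g.f m) * ee (-(β * m)) *
      ee (-(s / N) * m)) = rs lam 1 (P * L) n g (β + s / ((P * L : ℕ) : ℝ)) := by
    unfold rs
    refine ac_congr 1 (P * L) n fun m _ _ => ?_
    rw [mul_assoc, ← ee_add, ← hN]
    congr 2
    ring
  rw [eac, ← hN] at hU1
  rw [← hN] at hβs hβ hopt
  -- sizes
  have hsqrt : √((D / 20) ^ 2 + (D / 20) ^ 2) ≤ D / 10 := by
    rw [Real.sqrt_le_left (by positivity)]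
    nlinarith
  have hrest : 6 * (2 * Real.pi * (Lam / P)) ≤ D / 100 := by
    have h1 : Lam / P ≤ D / 4000 := by
      rw [div_le_div_iff₀ hP0 (by norm_num)]
      linarith
    have h2 : 0 ≤ Lam / P := by positivity
    have h3 : Real.pi < 3.15 := Real.pi_lt_d2
    nlinarith
  have h1L : ((1 : ℕ) : ℝ) / L ≤ D / 100 := by
    rw [Nat.cast_one, div_le_div_iff₀ hL0 (by norm_num)]
    linarith
  have hβ1 := hopt.df β
  obtain ⟨w, hw⟩ : ∃ w : ℂ, w = ac 1 N n (fun m => ee (-(s / N) * m)) := ⟨_, rfl⟩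
  rw [← hw] at hU1 hmean
  have h2 : ‖rs lam 1 N n g (β + s / (N : ℝ))‖ ≤ ‖rs lam 1 N n g β‖ * ‖w‖ +
      (1 * (3 * √((D / 20) ^ 2 + (D / 20) ^ 2) + ((1 : ℕ) : ℝ) / L) +
        6 * (2 * Real.pi * (Lam / P))) := by
    rw [← norm_mul]
    have := norm_sub_norm_le (rs lam 1 N n g (β + s / (N : ℝ))) (rs lam 1 N n g β * w)
    linarith
  have h3 : ‖rs lam 1 N n g β‖ * ‖w‖ ≤ th * (1 - d₁ ^ 2 / 2 + D / 40) :=
    mul_le_mul hβ1 hmean (norm_nonneg _) hth.le
  have h4 : th * (1 - d₁ ^ 2 / 2 + D / 40) ≤ th - D / 2 + D / 40 := by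
    have : th * (1 - d₁ ^ 2 / 2 + D / 40) = th - D / 2 + th * (D / 40) := by
      rw [hD]
      ring
    rw [this]
    nlinarith
  have h5 : (D / 20) ^ 2 ≤ D / 400 := by nlinarith
  linarith

end Pool.Agent.H13.GSW
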